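import Pool.Agent.W593.IR.Stm

/-!
# A symmetric Loomis–Whitney inequality
-/

namespace Pool.Agent.W929.IR

open Finset Pool.Agent.W593.IR

/-- number of `j`-tuples with sum less than `s` -/
noncomputable def NS {V : Type} (y : V → ℝ) (j : ℕ) (s : ℝ) : ℕ :=
  {f : Fin j → V | ∑ i, y (f i) < s}.ncard

lemma NS_succ {V : Type} [Fintype V] (y : V → ℝ) (j : ℕ) (s : ℝ) :
    NS y (j + 1) s = ∑ v, NS y j (s - y v) := by
  classical
  unfold NS
  have e : {f : Fin (j + 1) → V | ∑ i, y (f i) < s} ≃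
      Σ v : V, {g : Fin j → V | ∑ i, y (g i) < s - y v} :=
    { toFun := fun f => ⟨f.1 0, ⟨fun i => f.1 i.succ, by
        have h := f.2
        simp only [Set.mem_setOf_eq, Fin.sum_univ_succ] at h ⊢
        linarith⟩⟩
      invFun := fun p => ⟨Fin.cons p.1 p.2.1, by
        have h := p.2.2
        simp only [Set.mem_setOf_eq, Fin.sum_univ_succ, Fin.cons_zero, Fin.cons_succ] at h ⊢
        linarith⟩
      left_inv := fun f => by
        apply Subtype.ext
        funext i
        refine Fin.cases ?_ (fun i => ?_) i <;> simp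
      right_inv := fun p => by
        obtain ⟨v, g, hg⟩ := p
        rfl }
  have h1 := Nat.card_congr e
  rw [Nat.card_sigma] at h1
  rw [← Nat.card_coe_set_eq, h1]
  rfl

lemma NS_mono {V : Type} [Fintype V] (y : V → ℝ) (j : ℕ) {s s' : ℝ} (h : s ≤ s') :
    NS y j s ≤ NS y j s' :=
  Set.ncard_le_ncard (fun f hf => lt_of_lt_of_le hf h) (Set.toFinite _)

lemma NS_zero_of {V : Type} [Fintype V] (y : V → ℝ) (hy : ∀ v, 0 ≤ y v) (j : ℕ) {s : ℝ}
    (h : s ≤ 0) : NS y j s = 0 := by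
  unfold NS
  have h1 : {f : Fin j → V | ∑ i, y (f i) < s} = ∅ := by
    ext f
    simp only [Set.mem_setOf_eq, Set.mem_empty_iff_false, iff_false, not_lt]
    exact h.trans (Finset.sum_nonneg fun i _ => hy _)
  rw [h1, Set.ncard_empty]

lemma root_sum {V : Type} [Fintype V] (a b : V → ℕ) (M j : ℕ) (hj : 1 ≤ j)
    (h : ∀ v, a v ^ j ≤ M * b v ^ j) : (∑ v, a v) ^ j ≤ M * (∑ v, b v) ^ j := by
  have hj0 : j ≠ 0 := by omega
  set m : ℝ := (M : ℝ) ^ ((j : ℝ)⁻¹) with hm
  have hmpos : 0 ≤ m := Real.rpow_nonneg (Nat.cast_nonneg _) _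
  have hmj : m ^ j = M := Real.rpow_inv_natCast_pow (Nat.cast_nonneg _) hj0
  have h1 : ∀ v, (a v : ℝ) ≤ m * b v := by
    intro v
    refine le_of_pow_le_pow_left₀ hj0 (mul_nonneg hmpos (Nat.cast_nonneg _)) ?_
    rw [mul_pow, hmj]
    exact_mod_cast h v
  have h2 : ((∑ v, a v : ℕ) : ℝ) ≤ m * ((∑ v, b v : ℕ) : ℝ) := by
    push_cast
    rw [Finset.mul_sum]
    exact Finset.sum_le_sum fun v _ => h1 v
  have h3 : (((∑ v, a v) ^ j : ℕ) : ℝ) ≤ ((M * (∑ v, b v) ^ j : ℕ) : ℝ) := by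
    have h4 := pow_le_pow_left₀ (Nat.cast_nonneg _) h2 j
    rw [mul_pow, hmj] at h4
    exact_mod_cast h4
  exact_mod_cast h3

lemma key {V : Type} [Fintype V] (y : V → ℝ) (hy : ∀ v, 0 ≤ y v) :
    ∀ j : ℕ, 1 ≤ j → ∀ s : ℝ, (NS y (j + 1) s) ^ j ≤ (NS y j s) ^ (j + 1) := by
  intro j hj
  induction j, hj using Nat.le_induction with
  | base =>
    intro s
    have h1 : ∀ v, NS y 1 (s - y v) ^ 1 ≤ NS y 1 s * NS y 0 (s - y v) ^ 1 := by
      intro v
      rw [pow_one, pow_one]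
      by_cases hs : s - y v ≤ 0
      · rw [NS_zero_of y hy 1 hs]
        exact Nat.zero_le _
      · have h2 : NS y 0 (s - y v) = 1 := by
          unfold NS
          have h3 : {f : Fin 0 → V | ∑ i, y (f i) < s - y v} = {finZeroElim} := by
            ext f
            simp only [Set.mem_setOf_eq, Set.mem_singleton_iff, Finset.univ_eq_empty,
              Finset.sum_empty]
            exact ⟨fun _ => Subsingleton.elim _ _, fun _ => not_le.mp hs⟩
          rw [h3, Set.ncard_singleton]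
        rw [h2, mul_one]
        exact NS_mono y 1 (by linarith [hy v])
    have h2 := root_sum _ _ _ 1 le_rfl h1
    rw [← NS_succ, ← NS_succ] at h2
    calc (NS y (1 + 1) s) ^ 1 ≤ NS y 1 s * NS y (0 + 1) s ^ 1 := h2
      _ = _ := by ring
  | succ j hj ih =>
    intro s
    have h1 : ∀ v, NS y (j + 1) (s - y v) ^ (j + 1) ≤
        NS y (j + 1) s * NS y j (s - y v) ^ (j + 1) := by
      intro v
      rw [pow_succ, mul_comm]
      exact Nat.mul_le_mul (NS_mono y _ (by linarith [hy v])) (ih _)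
    have h2 := root_sum _ _ _ (j + 1) (by omega) h1
    rw [← NS_succ, ← NS_succ] at h2
    calc (NS y (j + 1 + 1) s) ^ (j + 1) ≤ NS y (j + 1) s * NS y (j + 1) s ^ (j + 1) := h2
      _ = _ := by ring

theorem lw : S_LW := by
  intro V _ y hy j hj
  exact key y hy j hj 1

end Pool.Agent.W929.IR
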